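import Pool.Agent.H586.GLU.Stm

/-! Task GLU-BND (helper376, for helper586) -/

set_option autoImplicit false
set_option linter.unusedSectionVars false

open MeasureTheory Matrix Finset Filter Topology
open scoped Matrix.Norms.Frobenius

namespace Pool.Agent.H376.GLU

open Pool.Agent.N990 hiding CB CB_nonneg dd_le
open Pool.Agent.N109.Slab
open Pool.Agent.H586.GLU

variable {N D L : ℕ}

theorem n_smul_mul_add {c s m : ℝ} {P Q X : Mt N} (hc : |c| ≤ s) (hX : ‖X‖ ≤ 1)
    (hP : ‖P‖ ≤ m) (hQ : ‖Q‖ ≤ m) : ‖c • (X * (P + Q))‖ ≤ s * (2 * m) := by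
  have hs : 0 ≤ s := (abs_nonneg c).trans hc
  rw [norm_smul, Real.norm_eq_abs]
  have h1 : ‖X * (P + Q)‖ ≤ 1 * (m + m) :=
    (norm_mul_le _ _).trans (mul_le_mul hX ((norm_add_le _ _).trans (add_le_add hP hQ))
      (norm_nonneg _) zero_le_one)
  exact mul_le_mul hc (h1.trans (by linarith)) (norm_nonneg _) hs

theorem n_smul_add_mul {c s m : ℝ} {P Q X : Mt N} (hc : |c| ≤ s) (hX : ‖X‖ ≤ 1)
    (hP : ‖P‖ ≤ m) (hQ : ‖Q‖ ≤ m) : ‖c • (P * X + X * Q)‖ ≤ s * (2 * m) := by
  have hs : 0 ≤ s := (abs_nonneg c).trans hc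
  have hm : 0 ≤ m := (norm_nonneg P).trans hP
  rw [norm_smul, Real.norm_eq_abs]
  have h1 : ‖P * X‖ ≤ m * 1 :=
    (norm_mul_le _ _).trans (mul_le_mul hP hX (norm_nonneg _) hm)
  have h2 : ‖X * Q‖ ≤ 1 * m :=
    (norm_mul_le _ _).trans (mul_le_mul hX hQ (norm_nonneg _) zero_le_one)
  have h3 := norm_add_le (P * X) (X * Q)
  exact mul_le_mul hc (by linarith) (norm_nonneg _) hs

theorem n_four {E : Type} [SeminormedAddCommGroup E] {a b c d : E} {m : ℝ} (ha : ‖a‖ ≤ m)
    (hb : ‖b‖ ≤ m) (hc : ‖c‖ ≤ m) (hd : ‖d‖ ≤ m) : ‖a + b - c - d‖ ≤ 4 * m := by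
  have h1 := norm_sub_le (a + b - c) d
  have h2 := norm_sub_le (a + b) c
  have h3 := norm_add_le a b
  linarith

theorem n_low {E : Type} [SeminormedAddCommGroup E] {φ : Lab D L → E} {m : ℝ} (hm : 0 ≤ m)
    (h : ∀ a, ‖φ a‖ ≤ m) (a : Lab D L) : ‖low φ a‖ ≤ m := by
  unfold low
  split_ifs
  · rw [norm_zero]
    exact hm
  · exact h _

theorem n_dv {E : Type} [SeminormedAddCommGroup E] {φ : Site D → Lab D L → E} {x : Site D}
    {m : ℝ} (hm : 0 ≤ m) (h : ∀ a, ‖φ x a‖ ≤ m) (a : Lab D L) : ‖dv φ x a‖ ≤ 2 * m := by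
  unfold dv
  have h1 := norm_sub_le (φ x a) (low (φ x) a)
  have h2 := h a
  have h3 := n_low hm h a
  linarith

theorem n_dp {E : Type} [SeminormedAddCommGroup E] {φ : Site D → Lab D L → E} {x : Site D}
    {m : ℝ} (h : ∀ a, ‖φ x a‖ ≤ m) (h' : ∀ i a, ‖φ (x + ev i) a‖ ≤ m)
    (p : (Fin D × Fin D) × Fin L) : ‖dp φ x p‖ ≤ 4 * m := by
  unfold dp
  exact n_four (h _) (h' _ _) (h _) (h' _ _)

theorem card_plabs : ((plabs D L).card : ℝ) ≤ D * D * L := by
  have h : (plabs D L).card ≤ D * D * L := by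
    unfold plabs
    refine (Finset.card_filter_le _ _).trans ?_
    rw [Finset.card_univ, Fintype.card_prod, Fintype.card_prod, Fintype.card_fin, Fintype.card_fin]
  exact_mod_cast h

theorem site (ω : SF D L) (X : Mt N) (A B : MF N D L) (x : Site D) {s a b : ℝ} (ha : 0 ≤ a)
    (hb : 0 ≤ b) (hs : 0 ≤ s) (hω : ∀ x a, |ω x a| ≤ s) (hX : ‖X‖ ≤ 1)
    (hA : ∀ l, ‖A x l‖ ≤ a) (hA' : ∀ i l, ‖A (x + ev i) l‖ ≤ a)
    (hB : ∀ l, ‖B x l‖ ≤ b) (hB' : ∀ i l, ‖B (x + ev i) l‖ ≤ b) :
    |qx ω X A B x| ≤ (D * L) * (4 * (s * a * b)) + (D * D * L) * (40 * (s * a * b)) := by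
  unfold qx
  have hXB : ∀ y, (∀ l, ‖B y l‖ ≤ b) → ∀ l, ‖ω y l • (X * B y l)‖ ≤ s * b := by
    intro y hy l
    rw [norm_smul, Real.norm_eq_abs]
    have h1 : ‖X * B y l‖ ≤ 1 * b :=
      (norm_mul_le _ _).trans (mul_le_mul hX (hy l) (norm_nonneg _) zero_le_one)
    exact mul_le_mul (hω y l) (h1.trans (by linarith)) (norm_nonneg _) hs
  refine (abs_add_le _ _).trans (add_le_add ?_ ?_)
  · calc |∑ l, ip (dv A x l) (dv (fun y b => ω y b • (X * B y b)) x l)|
        ≤ ∑ _l : Lab D L, 4 * (s * a * b) := by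
          refine (Finset.abs_sum_le_sum_abs _ _).trans (Finset.sum_le_sum fun l _ => ?_)
          refine (ip_le _ _).trans ?_
          have h1 := n_dv (φ := A) (x := x) ha hA l
          have h2 := n_dv (φ := fun y b => ω y b • (X * B y b)) (x := x) (mul_nonneg hs hb)
            (hXB x hB) l
          calc _ ≤ (2 * a) * (2 * (s * b)) :=
                mul_le_mul h1 h2 (norm_nonneg _) (by positivity)
            _ = _ := by ring
      _ = (D * L) * (4 * (s * a * b)) := by
          rw [Finset.sum_const, Finset.card_univ, Fintype.card_prod, Fintype.card_fin,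
            Fintype.card_fin, nsmul_eq_mul]
          push_cast
          ring
  · have hK : 0 ≤ 40 * (s * a * b) := by positivity
    calc _ ≤ ∑ _p ∈ plabs D L, 40 * (s * a * b) := by
          refine (Finset.abs_sum_le_sum_abs _ _).trans (Finset.sum_le_sum fun p _ => ?_)
          have h1 : |dp ω x p| ≤ 4 * s := by
            have := n_dp (φ := ω) (x := x) (m := s) (fun l => by
              rw [Real.norm_eq_abs]; exact hω x l) (fun i l => by
              rw [Real.norm_eq_abs]; exact hω _ l) p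
            rwa [Real.norm_eq_abs] at this
          have h2 : |ip (A x (p.1.1, p.2) * B (x + ev p.1.1) (p.1.2, p.2) -
              A x (p.1.2, p.2) * B (x + ev p.1.2) (p.1.1, p.2)) X| ≤ 2 * (a * b) := by
            refine (ip_le _ _).trans ?_
            have h3 : ‖A x (p.1.1, p.2) * B (x + ev p.1.1) (p.1.2, p.2)‖ ≤ a * b :=
              (norm_mul_le _ _).trans (mul_le_mul (hA _) (hB' _ _) (norm_nonneg _) ha)
            have h4 : ‖A x (p.1.2, p.2) * B (x + ev p.1.2) (p.1.1, p.2)‖ ≤ a * b :=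
              (norm_mul_le _ _).trans (mul_le_mul (hA _) (hB' _ _) (norm_nonneg _) ha)
            have h5 := norm_sub_le (A x (p.1.1, p.2) * B (x + ev p.1.1) (p.1.2, p.2))
              (A x (p.1.2, p.2) * B (x + ev p.1.2) (p.1.1, p.2))
            calc _ ≤ (2 * (a * b)) * 1 :=
                  mul_le_mul (by linarith) hX (norm_nonneg _) (by positivity)
              _ = _ := by ring
          have h6 := n_dp (φ := A) (x := x) hA hA' p
          have h7 : ‖ω x (p.1.1, p.2) • (X * (B x (p.1.1, p.2) + B (x + ev p.1.1) (p.1.2, p.2))) +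
              ω (x + ev p.1.1) (p.1.2, p.2) •
                (B x (p.1.1, p.2) * X + X * B (x + ev p.1.1) (p.1.2, p.2)) -
              ω x (p.1.2, p.2) • (X * (B x (p.1.2, p.2) + B (x + ev p.1.2) (p.1.1, p.2))) -
              ω (x + ev p.1.2) (p.1.1, p.2) •
                (B x (p.1.2, p.2) * X + X * B (x + ev p.1.2) (p.1.1, p.2))‖ ≤
              4 * (s * (2 * b)) :=
            n_four (n_smul_mul_add (hω _ _) hX (hB _) (hB' _ _))
              (n_smul_add_mul (hω _ _) hX (hB _) (hB' _ _))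
              (n_smul_mul_add (hω _ _) hX (hB _) (hB' _ _))
              (n_smul_add_mul (hω _ _) hX (hB _) (hB' _ _))
          refine (abs_add_le _ _).trans ?_
          have h8 : |dp ω x p * ip (A x (p.1.1, p.2) * B (x + ev p.1.1) (p.1.2, p.2) -
              A x (p.1.2, p.2) * B (x + ev p.1.2) (p.1.1, p.2)) X| ≤ (4 * s) * (2 * (a * b)) := by
            rw [abs_mul]
            exact mul_le_mul h1 h2 (abs_nonneg _) (by positivity)
          have h9 := (ip_le (dp A x p) (ω x (p.1.1, p.2) •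
              (X * (B x (p.1.1, p.2) + B (x + ev p.1.1) (p.1.2, p.2))) +
              ω (x + ev p.1.1) (p.1.2, p.2) •
                (B x (p.1.1, p.2) * X + X * B (x + ev p.1.1) (p.1.2, p.2)) -
              ω x (p.1.2, p.2) • (X * (B x (p.1.2, p.2) + B (x + ev p.1.2) (p.1.1, p.2))) -
              ω (x + ev p.1.2) (p.1.1, p.2) •
                (B x (p.1.2, p.2) * X + X * B (x + ev p.1.2) (p.1.1, p.2)))).trans
              (mul_le_mul h6 h7 (norm_nonneg _) (by positivity))
          calc _ ≤ (4 * s) * (2 * (a * b)) + (4 * a) * (4 * (s * (2 * b))) := add_le_add h8 h9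
            _ = _ := by ring
      _ = (plabs D L).card * (40 * (s * a * b)) := by rw [Finset.sum_const, nsmul_eq_mul]
      _ ≤ _ := mul_le_mul_of_nonneg_right card_plabs hK

theorem Ns_le (V : Finset (Site D)) {s : ℝ} (hs : 1 ≤ s) (hD : (D : ℝ) ≤ s)
    (hV : (V.card : ℝ) ≤ s) : ((Ns V).card : ℝ) ≤ 2 * s ^ 2 := by
  have h1 : ((Ns V).card : ℝ) ≤ (D + 1) * V.card := by exact_mod_cast Ns_card V
  have h2 : ((D : ℝ) + 1) * V.card ≤ (s + s) * s :=
    mul_le_mul (by linarith) hV (Nat.cast_nonneg _) (by linarith)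
  calc _ ≤ _ := h1
    _ ≤ _ := h2
    _ = _ := by ring

theorem bnd : S_BND := by
  intro N D L V ω X s hs hD hL hV hω hX
  have hs0 : 0 ≤ s := by linarith
  have hDL : (D : ℝ) * L ≤ s * s := mul_le_mul hD hL (Nat.cast_nonneg _) hs0
  have hDDL : (D : ℝ) * D * L ≤ s * s * s :=
    mul_le_mul (mul_le_mul hD hD (Nat.cast_nonneg _) hs0) hL (Nat.cast_nonneg _) (by positivity)
  have hss : s * s ≤ s * s * s := le_mul_of_one_le_right (by positivity) hs
  have hN := Ns_le V hs hD hV
  have hcl : ∀ (A : MF N D L), ∀ x ∈ Ns V, (∀ l, ‖A x l‖ ≤ nu (clA V) A) ∧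
      ∀ i l, ‖A (x + ev i) l‖ ≤ nu (clA V) A := by
    intro A x hx
    exact ⟨fun l => le_nu A (Ns_clA V hx) l,
      fun i l => le_nu A (mem_clA.2 (Or.inr ⟨i, x, hx, rfl⟩)) l⟩
  refine ⟨?_, ?_, ?_, ?_⟩
  · intro A
    have hn := nu_nonneg (clA V) A
    have hip : ∀ y l, |ip X (A y l)| ≤ ‖A y l‖ := by
      intro y l
      refine (ip_le _ _).trans ?_
      have := norm_nonneg (A y l)
      nlinarith
    calc |BL V ω X A| ≤ ∑ x ∈ Ns V, |bx ω (fun y b => ip X (A y b)) x| :=
          Finset.abs_sum_le_sum_abs _ _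
      _ ≤ ∑ _x ∈ Ns V, 20 * s ^ 3 * (s * nu (clA V) A) := by
          refine Finset.sum_le_sum fun x hx => ?_
          obtain ⟨h1, h2⟩ := hcl A x hx
          refine (bx_le hs0 hn (hω x) (fun i l => hω _ l) (fun l => (hip x l).trans (h1 l))
            (fun i l => (hip _ l).trans (h2 i l))).trans ?_
          refine mul_le_mul_of_nonneg_right ?_ (by positivity)
          have e : s ^ 3 = s * s * s := by ring
          rw [e]
          linarith
      _ = (Ns V).card * (20 * s ^ 3 * (s * nu (clA V) A)) := by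
          rw [Finset.sum_const, nsmul_eq_mul]
      _ ≤ (2 * s ^ 2) * (20 * s ^ 3 * (s * nu (clA V) A)) :=
          mul_le_mul_of_nonneg_right hN (by positivity)
      _ = 40 * s ^ 6 * nu (clA V) A := by ring
      _ ≤ 100 * s ^ 7 * nu (clA V) A := by
          refine mul_le_mul_of_nonneg_right ?_ hn
          have h6 : s ^ 6 ≤ s ^ 7 := pow_le_pow_right₀ hs (by norm_num)
          have h7 : 0 ≤ s ^ 7 := by positivity
          linarith
  · intro A B
    have hnA := nu_nonneg (clA V) A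
    have hnB := nu_nonneg (clA V) B
    rw [QL_apply]
    calc |∑ x ∈ Ns V, qx ω X A B x| ≤ ∑ x ∈ Ns V, |qx ω X A B x| :=
          Finset.abs_sum_le_sum_abs _ _
      _ ≤ ∑ _x ∈ Ns V, 44 * s ^ 3 * (s * nu (clA V) A * nu (clA V) B) := by
          refine Finset.sum_le_sum fun x hx => ?_
          obtain ⟨h1, h2⟩ := hcl A x hx
          obtain ⟨h3, h4⟩ := hcl B x hx
          refine (site ω X A B x hnA hnB hs0 hω hX h1 h2 h3 h4).trans ?_
          have hK : 0 ≤ s * nu (clA V) A * nu (clA V) B := by positivity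
          have e : s ^ 3 = s * s * s := by ring
          have h5 : (D : ℝ) * L * (4 * (s * nu (clA V) A * nu (clA V) B)) ≤
              (s * s * s) * (4 * (s * nu (clA V) A * nu (clA V) B)) :=
            mul_le_mul_of_nonneg_right (hDL.trans hss) (by positivity)
          have h6 : (D : ℝ) * D * L * (40 * (s * nu (clA V) A * nu (clA V) B)) ≤
              (s * s * s) * (40 * (s * nu (clA V) A * nu (clA V) B)) :=
            mul_le_mul_of_nonneg_right hDDL (by positivity)
          rw [e]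
          linarith
      _ = (Ns V).card * (44 * s ^ 3 * (s * nu (clA V) A * nu (clA V) B)) := by
          rw [Finset.sum_const, nsmul_eq_mul]
      _ ≤ (2 * s ^ 2) * (44 * s ^ 3 * (s * nu (clA V) A * nu (clA V) B)) :=
          mul_le_mul_of_nonneg_right hN (by positivity)
      _ = 88 * s ^ 6 * (nu (clA V) A * nu (clA V) B) := by ring
      _ ≤ 100 * s ^ 7 * (nu (clA V) A * nu (clA V) B) := by
          refine mul_le_mul_of_nonneg_right ?_ (by positivity)
          have h6 : s ^ 6 ≤ s ^ 7 := pow_le_pow_right₀ hs (by norm_num)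
          have h7 : 0 ≤ s ^ 7 := by positivity
          linarith
      _ = _ := by ring
  · intro A
    have hn := nu_nonneg (clA V) A
    refine nu_le (by positivity) fun x hx l => ?_
    change ‖ω x l • (X * A x l)‖ ≤ _
    rw [norm_smul, Real.norm_eq_abs]
    have h1 : ‖X * A x l‖ ≤ 1 * nu (clA V) A :=
      (norm_mul_le _ _).trans (mul_le_mul hX (le_nu A hx l) (norm_nonneg _) zero_le_one)
    exact mul_le_mul (hω x l) (h1.trans (by linarith)) (norm_nonneg _) hs0
  · refine nu_le hs0 fun x _ l => ?_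
    change ‖ω x l • X‖ ≤ _
    rw [norm_smul, Real.norm_eq_abs]
    calc |ω x l| * ‖X‖ ≤ s * 1 := mul_le_mul (hω x l) hX (norm_nonneg _) hs0
      _ = s := mul_one s

end Pool.Agent.H376.GLU
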