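import Pool.Agent.H586.GLU.Stm

/-! Task GLU-SKEW (helper376, for helper586) -/

set_option autoImplicit false

open MeasureTheory Matrix Finset Filter Topology
open scoped Matrix.Norms.Frobenius

namespace Pool.Agent.H376.GLU

open Pool.Agent.N990 hiding CB CB_nonneg dd_le
open Pool.Agent.N109.Slab
open Pool.Agent.H586.GLU

theorem deriv_aux {N : ℕ} (X Y : Mt N) :
    HasDerivAt (fun t : ℝ => NormedSpace.exp (t • Y) * NormedSpace.exp (t • X)) (Y + X) 0 := by
  have h1 : HasDerivAt (fun t : ℝ => NormedSpace.exp (t • Y)) Y 0 := by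
    have h := hasDerivAt_exp_smul_const (𝕂 := ℝ) Y (0 : ℝ)
    rw [zero_smul, NormedSpace.exp_zero, one_mul] at h
    exact h
  have h2 : HasDerivAt (fun t : ℝ => NormedSpace.exp (t • X)) X 0 := by
    have h := hasDerivAt_exp_smul_const (𝕂 := ℝ) X (0 : ℝ)
    rw [zero_smul, NormedSpace.exp_zero, one_mul] at h
    exact h
  have h3 := h1.mul h2
  rw [zero_smul, zero_smul, NormedSpace.exp_zero, mul_one, one_mul] at h3
  exact h3

theorem skew : S_SKEW := by
  intro N G X h
  have hc : (fun t : ℝ => NormedSpace.exp (t • Xᴴ) * NormedSpace.exp (t • X)) =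
      fun _ : ℝ => (1 : Mt N) := by
    funext t
    obtain ⟨g, hg⟩ := h t
    have h1 : (mt g)ᴴ * mt g = 1 := by
      have := (Matrix.mem_unitaryGroup_iff').1 (g : UU N).2
      exact this
    have h2 : NormedSpace.exp (t • Xᴴ) = (NormedSpace.exp (t • X))ᴴ := by
      rw [← Matrix.exp_conjTranspose, Matrix.conjTranspose_smul, star_trivial]
    rw [h2, ← hg]
    exact h1
  have hd := deriv_aux X Xᴴ
  rw [hc] at hd
  have h1 := hd.unique (hasDerivAt_const (0 : ℝ) (1 : Mt N))
  exact eq_neg_of_add_eq_zero_left h1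

end Pool.Agent.H376.GLU
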